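import Mathlib

namespace Pool.Agent.H.MP_195d7c_lc

inductive L (T : Type) | a | b | c | o (t : T)

open L

variable {T : Type}

def H : L T → List (L T)
  | a => [a]
  | b => [b, a, b, a]
  | c => [a, b, a, b, a, b, a]
  | o t => [o t]

def G : L T → List (L T)
  | a => [a, b, a, b, a]
  | b => [a, b, a, b]
  | c => [a, b, a]
  | o t => [o t]

theorem H_shift : ∀ (n : ℕ) (u v : List (L T)), u.length + v.length ≤ n →
    u.flatMap H ≠ b :: a :: v.flatMap H := by
  intro n
  induction n with
  | zero =>
    intro u v h
    have : u = [] := List.length_eq_zero_iff.1 (by omega)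
    subst this
    simp
  | succ n ih =>
    intro u v h e
    rcases u with _ | ⟨_ | _ | _ | t, u⟩ <;> simp [H] at e
    exact ih v u (by simp at h; omega) e.symm

theorem H_key (u v : List (L T)) : u.flatMap H ≠ b :: a :: b :: a :: b :: a :: v.flatMap H := by
  intro e
  rcases u with _ | ⟨_ | _ | _ | t, u⟩ <;> simp [H] at e
  exact H_shift _ u v le_rfl e

theorem H_inj : ∀ u v : List (L T), u.flatMap H = v.flatMap H → u = v := by
  intro u
  induction u with
  | nil => rintro (_ | ⟨_ | _ | _ | t, v⟩) e <;> simp [H] at e ⊢
  | cons i u ih =>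
    rcases i with _ | _ | _ | s <;> rintro (_ | ⟨_ | _ | _ | t, v⟩) e <;> simp [H] at e ⊢
    · exact ih v e
    · exact H_key _ _ e
    · exact ih v e
    · exact H_key _ _ e.symm
    · exact ih v e
    · exact ⟨e.1, ih v e.2⟩

theorem G_b (u w : List (L T)) : u.flatMap G ≠ b :: w := by
  intro e
  rcases u with _ | ⟨_ | _ | _ | t, u⟩ <;> simp [G] at e

theorem G_a (u v : List (L T)) : u.flatMap G ≠ a :: v.flatMap G := by
  intro e
  rcases u with _ | ⟨_ | _ | _ | t, u⟩ <;> simp [G] at e <;> exact G_b _ _ e.symm

theorem G_inj : ∀ u v : List (L T), u.flatMap G = v.flatMap G → u = v := by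
  intro u
  induction u with
  | nil => rintro (_ | ⟨_ | _ | _ | t, v⟩) e <;> simp [G] at e ⊢
  | cons i u ih =>
    rcases i with _ | _ | _ | s <;> rintro (_ | ⟨_ | _ | _ | t, v⟩) e <;> simp [G] at e ⊢
    all_goals first
      | exact ih v e
      | exact ⟨e.1, ih v e.2⟩
      | exact G_b _ _ e
      | exact G_b _ _ e.symm
      | exact G_a _ _ e
      | exact G_a _ _ e.symm

def r (w : List (L T)) : ℕ → List (L T)
  | 0 => []
  | n + 1 => w ++ r w n

theorem r_succ (w : List (L T)) (n : ℕ) : r w (n + 1) = r w n ++ w := by
  induction n with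
  | zero => simp [r]
  | succ n ih => rw [r, ih, ← List.append_assoc, ← ih, r]

theorem r_len (w : List (L T)) (n : ℕ) : (r w n).length = n * w.length := by
  induction n with
  | zero => simp [r]
  | succ n ih => simp [r, ih]; ring

theorem r_map (f : L T → List (L T)) (i : L T) (n : ℕ) :
    (List.replicate n i).flatMap f = r (f i) n := by
  induction n with
  | zero => simp [r]
  | succ n ih => simp [r, List.replicate_succ, ih]

theorem r_conj (n : ℕ) : r [a, b, a, b] n ++ [a] = a :: r ([b, a, b, a] : List (L T)) n := by
  induction n with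
  | zero => simp [r]
  | succ n ih => simp [r, ih]

def p : ℕ → List (L T)
  | 0 => []
  | n + 1 => p n ++ a :: List.replicate (n + 1) b

def s : ℕ → List (L T)
  | 0 => []
  | n + 1 => c :: List.replicate n b ++ s n

theorem p_eq (n : ℕ) : (p n : List (L T)).flatMap G = (p n).flatMap H ++ r [a, b, a, b] n := by
  induction n with
  | zero => simp [p, r]
  | succ n ih =>
    have h := r_conj (T := T) (n + 1)
    rw [r_succ] at h
    simp only [p, List.flatMap_append, List.flatMap_cons, ih, r_map, G, H, List.append_assoc,
      List.append_cancel_left_eq]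
    rw [← List.append_assoc, ← List.append_assoc]
    congr 1
    simpa using h

theorem s_eq (n : ℕ) : r [a, b, a, b] n ++ (s n : List (L T)).flatMap G = (s n).flatMap H := by
  induction n with
  | zero => simp [s, r]
  | succ n ih =>
    have h := r_conj (T := T) n
    simp only [s, List.flatMap_append, List.flatMap_cons, r_map, G, H, List.append_assoc,
      List.cons_append, List.nil_append, ← ih, r]
    congr 4
    have h2 : ∀ m, r [b, a, b, a] m ++ [b, a] = b :: a :: r ([b, a, b, a] : List (L T)) m := by
      intro m
      induction m with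
      | zero => simp [r]
      | succ m ih => simp [r, ih]
    calc _ = (r [a, b, a, b] n ++ [a]) ++ ([b, a] ++ (r [a, b, a, b] n ++ (s n).flatMap G)) := by
          simp
      _ = a :: ((r [b, a, b, a] n ++ [b, a]) ++ (r [a, b, a, b] n ++ (s n).flatMap G)) := by
          rw [h]; simp
      _ = _ := by rw [h2]; simp

theorem sol (m n : ℕ) :
    (p m ++ s n : List (L T)).flatMap H = (p m ++ s n).flatMap G ↔ m = n := by
  rw [List.flatMap_append, List.flatMap_append, p_eq, ← s_eq, List.append_assoc,
    List.append_cancel_left_eq, List.append_cancel_right_eq]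
  constructor
  · intro h
    have := congrArg List.length h
    simp only [r_len, List.length_cons, List.length_nil] at this
    omega
  · rintro rfl
    rfl

def eqv : L T ≃ Fin 3 ⊕ T where
  toFun
    | a => .inl 0
    | b => .inl 1
    | c => .inl 2
    | o t => .inr t
  invFun
    | .inl i => ![a, b, c] i
    | .inr t => o t
  left_inv x := by cases x <;> rfl
  right_inv x := by
    rcases x with i | t
    · fin_cases i <;> rfl
    · rfl

end Pool.Agent.H.MP_195d7c_lc
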